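import Mathlib

set_option autoImplicit false
open scoped ContDiff Topology
open Set

namespace Pool.Agent.MP03e07f

variable {E : Type*} [NormedAddCommGroup E] [NormedSpace ℝ E]

/-- The unit interval as a compact space. -/
abbrev UI : Type := Set.Icc (0 : ℝ) 1

/-- Projection of the real line to the unit interval. -/
noncomputable def pr (t : ℝ) : UI := projIcc 0 1 zero_le_one t

theorem continuous_pr : Continuous pr := continuous_projIcc (h := zero_le_one)

theorem pr_coe (t : UI) : pr (t : ℝ) = t := projIcc_val zero_le_one t

omit [NormedSpace ℝ E] in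
theorem continuous_ext (γ : C(UI, E)) : Continuous (fun s => γ (pr s)) :=
  γ.continuous.comp continuous_pr

/-- The primitive operator on `C([0,1], E)`. -/
noncomputable def prim (E : Type*) [NormedAddCommGroup E] [NormedSpace ℝ E] :
    C(UI, E) →L[ℝ] C(UI, E) :=
  LinearMap.mkContinuous
    { toFun := fun γ => ⟨fun t => ∫ s in (0 : ℝ)..t, γ (pr s), by
        have h : Continuous (fun t : ℝ => ∫ s in (0 : ℝ)..t, γ (pr s)) :=
          intervalIntegral.continuous_primitive
            (fun a b => (continuous_ext γ).intervalIntegrable a b) 0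
        exact h.comp continuous_subtype_val⟩
      map_add' := by
        intro γ η
        ext t
        simp only [ContinuousMap.coe_mk, ContinuousMap.add_apply]
        rw [intervalIntegral.integral_add ((continuous_ext γ).intervalIntegrable _ _)
          ((continuous_ext η).intervalIntegrable _ _)]
      map_smul' := by
        intro c γ
        ext t
        simp }
    1
    (by
      intro γ
      rw [ContinuousMap.norm_le _ (by positivity)]
      intro t
      simp only [LinearMap.coe_mk, AddHom.coe_mk, ContinuousMap.coe_mk, one_mul]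
      have h := intervalIntegral.norm_integral_le_of_norm_le_const (a := (0 : ℝ)) (b := (t : ℝ))
        (f := fun s => γ (pr s)) (C := ‖γ‖) (fun s _ => γ.norm_coe_le_norm _)
      refine h.trans ?_
      have h1 : |(t : ℝ) - 0| ≤ 1 := by
        rw [sub_zero, abs_of_nonneg t.2.1]
        exact t.2.2
      calc ‖γ‖ * |(t : ℝ) - 0| ≤ ‖γ‖ * 1 := by gcongr
        _ = ‖γ‖ := mul_one _)

theorem prim_apply (γ : C(UI, E)) (t : UI) : prim E γ t = ∫ s in (0 : ℝ)..t, γ (pr s) := rfl

/-- Derivative of the primitive. -/
theorem hasDerivAt_prim [CompleteSpace E] (γ : C(UI, E)) (t : ℝ) :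
    HasDerivAt (fun t : ℝ => ∫ s in (0 : ℝ)..t, γ (pr s)) (γ (pr t)) t :=
  intervalIntegral.integral_hasDerivAt_right ((continuous_ext γ).intervalIntegrable _ _)
    ((continuous_ext γ).stronglyMeasurableAtFilter _ _) (continuous_ext γ).continuousAt

end Pool.Agent.MP03e07f
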