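import Mathlib

set_option autoImplicit false
open scoped ContDiff Topology
open Set

namespace Pool.Agent.MP03e07f

/-- Smooth inverse function theorem on an open set: a map which is `C^∞` on the open set `U` and has
an invertible derivative at `a ∈ U` restricts to a `C^∞` diffeomorphism between open sets. -/
theorem exists_smooth_inverse {E F : Type*} [NormedAddCommGroup E] [NormedSpace ℝ E]
    [CompleteSpace E] [NormedAddCommGroup F] [NormedSpace ℝ F] [CompleteSpace F]
    {f : E → F} {U : Set E} (hU : IsOpen U) {a : E} (ha : a ∈ U) (hf : ContDiffOn ℝ ∞ f U)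
    (f' : E ≃L[ℝ] F) (hf' : HasFDerivAt f (f' : E →L[ℝ] F) a) :
    ∃ e : OpenPartialHomeomorph E F, a ∈ e.source ∧ e.source ⊆ U ∧ (∀ x, e x = f x) ∧
      ContDiffOn ℝ ∞ e e.source ∧ ContDiffOn ℝ ∞ e.symm e.target := by
  have hfa : ContDiffAt ℝ ∞ f a := hf.contDiffAt (hU.mem_nhds ha)
  let e₀ := hfa.toOpenPartialHomeomorph f hf' (by simp)
  have he₀ : ∀ x, e₀ x = f x := fun x => rfl
  have ha₀ : a ∈ e₀.source := hfa.mem_toOpenPartialHomeomorph_source hf' (by simp)
  have hfd : ContinuousOn (fderiv ℝ f) U := hf.continuousOn_fderiv_of_isOpen hU (by simp)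
  let R : Set (E →L[ℝ] F) := range ((↑) : (E ≃L[ℝ] F) → E →L[ℝ] F)
  have hR : IsOpen R := ContinuousLinearEquiv.isOpen
  have hS : IsOpen (U ∩ fderiv ℝ f ⁻¹' R) := hfd.isOpen_inter_preimage hU hR
  let e := e₀.restrOpen _ hS
  have hsrc : e.source = e₀.source ∩ (U ∩ fderiv ℝ f ⁻¹' R) := rfl
  have hsub : e.source ⊆ U := fun x hx => hx.2.1
  refine ⟨e, ?_, hsub, fun x => rfl, ?_, ?_⟩
  · rw [hsrc]
    refine ⟨ha₀, ha, ?_⟩
    show fderiv ℝ f a ∈ R
    rw [hf'.fderiv]
    exact ⟨f', rfl⟩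
  · exact (hf.mono hsub)
  · intro y hy
    have hx : e.symm y ∈ e.source := e.map_target hy
    have hxU : e.symm y ∈ U := hsub hx
    obtain ⟨A, hA⟩ : fderiv ℝ f (e.symm y) ∈ R := hx.2.2
    have hcd : ContDiffAt ℝ ∞ f (e.symm y) := hf.contDiffAt (hU.mem_nhds hxU)
    apply ContDiffAt.contDiffWithinAt
    apply e.contDiffAt_symm (f₀' := A) hy
    · rw [hA]
      exact (hcd.differentiableAt (by simp)).hasFDerivAt
    · exact hcd

end Pool.Agent.MP03e07f
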