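import Mathlib

set_option autoImplicit false
open scoped ContDiff Topology
open Set

namespace Pool.Agent.MP03e07f

/-! ### Superposition (Nemytskii) operators on `C(K, E)` -/

section Nem

/-- The superposition operator `γ ↦ f ∘ γ` (junk value `0` if `f ∘ γ` is not continuous). -/
noncomputable def nem {K : Type*} [TopologicalSpace K]
    {E F : Type*} [NormedAddCommGroup E] [NormedAddCommGroup F]
    (f : E → F) (γ : C(K, E)) : C(K, F) := by
  classical exact if h : Continuous (fun k => f (γ k)) then ⟨fun k => f (γ k), h⟩ else 0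

/-- The set of curves with values in `U`. -/
def inSet (K : Type*) [TopologicalSpace K] {E : Type*} [NormedAddCommGroup E]
    (U : Set E) : Set C(K, E) := {γ | ∀ k, γ k ∈ U}

theorem nem_apply {K : Type*} [TopologicalSpace K]
    {E F : Type*} [NormedAddCommGroup E] [NormedAddCommGroup F]
    {f : E → F} {U : Set E} (hf : ContinuousOn f U) {γ : C(K, E)}
    (hγ : γ ∈ inSet K U) (k : K) : nem f γ k = f (γ k) := by
  have h : Continuous (fun k => f (γ k)) := hf.comp_continuous γ.continuous hγ
  simp [nem, h]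

variable {K : Type*} [TopologicalSpace K] [CompactSpace K]

theorem isOpen_inSet {E : Type*} [NormedAddCommGroup E] {U : Set E} (hU : IsOpen U) :
    IsOpen (inSet K U) := by
  have h := ContinuousMap.isOpen_setOfPred_mapsTo (X := K) (Y := E) isCompact_univ hU
  have : inSet K U = {f : C(K, E) | MapsTo f univ U} := by
    ext γ
    simp [inSet, MapsTo]
  rw [this]
  exact h

theorem continuousOn_nem {E F : Type*} [NormedAddCommGroup E] [NormedAddCommGroup F]
    {f : E → F} {U : Set E} (hf : ContinuousOn f U) :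
    ContinuousOn (nem f : C(K, E) → C(K, F)) (inSet K U) := by
  rw [continuousOn_iff_continuous_domRestrict]
  apply ContinuousMap.continuous_of_continuous_uncurry
  have h1 : (Function.uncurry fun (x : inSet K U) (y : K) => ((inSet K U).domRestrict (nem f) x) y)
      = fun p : (inSet K U) × K => f ((p.1 : C(K, E)) p.2) := by
    ext p
    simp [Function.uncurry, nem_apply hf p.1.2]
  rw [h1]
  apply hf.comp_continuous
  · fun_prop
  · intro p
    exact p.1.2 p.2

/-- Pointwise application of an operator valued function: the bilinear map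
`C(K, E →L F) × C(K, E) → C(K, F)`. -/
noncomputable def appL (K : Type*) [TopologicalSpace K] [CompactSpace K]
    (E F : Type*) [NormedAddCommGroup E] [NormedSpace ℝ E]
    [NormedAddCommGroup F] [NormedSpace ℝ F] :
    C(K, E →L[ℝ] F) →L[ℝ] C(K, E) →L[ℝ] C(K, F) :=
  LinearMap.mkContinuous₂
    (LinearMap.mk₂ ℝ (fun (A : C(K, E →L[ℝ] F)) (η : C(K, E)) =>
      (⟨fun k => A k (η k), by fun_prop⟩ : C(K, F)))
      (by intro A B η; ext k; simp)
      (by intro c A η; ext k; simp)
      (by intro A η ζ; ext k; simp)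
      (by intro c A η; ext k; simp))
    1
    (by
      intro A η
      rw [ContinuousMap.norm_le _ (by positivity)]
      intro k
      simp only [LinearMap.mk₂_apply, ContinuousMap.coe_mk, one_mul]
      calc ‖A k (η k)‖ ≤ ‖A k‖ * ‖η k‖ := (A k).le_opNorm _
        _ ≤ ‖A‖ * ‖η‖ := by
          gcongr
          · exact A.norm_coe_le_norm k
          · exact η.norm_coe_le_norm k)

@[simp]
theorem appL_apply {E F : Type*} [NormedAddCommGroup E] [NormedSpace ℝ E]
    [NormedAddCommGroup F] [NormedSpace ℝ F] (A : C(K, E →L[ℝ] F)) (η : C(K, E)) (k : K) :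
    appL K E F A η k = A k (η k) := rfl

theorem hasFDerivAt_nem {E F : Type*} [NormedAddCommGroup E] [NormedSpace ℝ E]
    [NormedAddCommGroup F] [NormedSpace ℝ F]
    {f : E → F} {U : Set E} (hU : IsOpen U) (hf : DifferentiableOn ℝ f U)
    (hf' : ContinuousOn (fderiv ℝ f) U) {γ : C(K, E)} (hγ : γ ∈ inSet K U) :
    HasFDerivAt (nem f : C(K, E) → C(K, F)) (appL K E F (nem (fderiv ℝ f) γ)) γ := by
  have hcont : ContinuousAt (nem (fderiv ℝ f) : C(K, E) → C(K, E →L[ℝ] F)) γ :=
    (continuousOn_nem hf').continuousAt ((isOpen_inSet hU).mem_nhds hγ)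
  rw [hasFDerivAt_iff_isLittleO, Asymptotics.isLittleO_iff]
  intro ε hε
  have h1 : ∀ᶠ γ' in 𝓝 γ, ‖nem (fderiv ℝ f) γ' - nem (fderiv ℝ f) γ‖ < ε ∧ γ' ∈ inSet K U := by
    apply Filter.Eventually.and
    · have := Metric.tendsto_nhds.1 hcont ε hε
      simpa [dist_eq_norm] using this
    · exact (isOpen_inSet hU).mem_nhds hγ
  obtain ⟨δ, hδ, hball⟩ := Metric.eventually_nhds_iff_ball.1 h1
  filter_upwards [Metric.ball_mem_nhds γ hδ] with γ' hγ'
  rw [ContinuousMap.norm_le _ (by positivity)]
  intro k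
  have hmem := (hball γ' hγ').2
  simp only [ContinuousMap.sub_apply, appL_apply, nem_apply hf.continuousOn hmem,
    nem_apply hf.continuousOn hγ, nem_apply hf' hγ]
  -- mean value inequality on the segment
  have key : ∀ z ∈ segment ℝ (γ k) (γ' k), z ∈ U ∧ ‖fderiv ℝ f z - fderiv ℝ f (γ k)‖ ≤ ε := by
    intro z hz
    obtain ⟨a, b, ha, hb, hab, rfl⟩ := hz
    have hpt : a • γ + b • γ' ∈ Metric.ball γ δ :=
      (convex_ball γ δ) (Metric.mem_ball_self hδ) hγ' ha hb hab
    have h2 := hball _ hpt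
    have h3 : (a • γ + b • γ') k = a • γ k + b • γ' k := by simp
    constructor
    · rw [← h3]
      exact h2.2 k
    · have h4 := (nem (fderiv ℝ f) (a • γ + b • γ') - nem (fderiv ℝ f) γ).norm_coe_le_norm k
      rw [ContinuousMap.sub_apply, nem_apply hf' h2.2, nem_apply hf' hγ, h3] at h4
      exact h4.trans h2.1.le
  have h5 : ‖f (γ' k) - f (γ k) - fderiv ℝ f (γ k) (γ' k - γ k)‖ ≤ ε * ‖γ' k - γ k‖ := by
    apply Convex.norm_image_sub_le_of_norm_hasFDerivWithin_le' (s := segment ℝ (γ k) (γ' k))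
      (f' := fderiv ℝ f) _ _ (convex_segment _ _) (left_mem_segment ℝ _ _)
      (right_mem_segment ℝ _ _)
    · intro z hz
      exact ((hf.differentiableAt (hU.mem_nhds (key z hz).1)).hasFDerivAt).hasFDerivWithinAt
    · intro z hz
      exact (key z hz).2
  calc _ ≤ ε * ‖γ' k - γ k‖ := h5
    _ ≤ ε * ‖γ' - γ‖ := by
      gcongr
      exact (γ' - γ).norm_coe_le_norm k

theorem contDiffOn_nem_nat {E : Type} [NormedAddCommGroup E] [NormedSpace ℝ E]
    {U : Set E} (hU : IsOpen U) (n : ℕ) :
    ∀ {F : Type} [NormedAddCommGroup F] [NormedSpace ℝ F] {f : E → F},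
      ContDiffOn ℝ n f U → ContDiffOn ℝ n (nem f : C(K, E) → C(K, F)) (inSet K U) := by
  induction n with
  | zero =>
    intro F _ _ f hf
    simp only [Nat.cast_zero, contDiffOn_zero] at hf ⊢
    exact continuousOn_nem hf
  | succ n ih =>
    intro F _ _ f hf
    have hW := isOpen_inSet (K := K) hU
    have hf0 := hf
    simp only [Nat.cast_add, Nat.cast_one] at hf ⊢
    rw [contDiffOn_succ_iff_fderiv_of_isOpen hU] at hf
    obtain ⟨hd, -, hf1⟩ := hf
    rw [contDiffOn_succ_iff_fderiv_of_isOpen hW]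
    have hder : ∀ γ ∈ inSet K U, HasFDerivAt (nem f : C(K, E) → C(K, F))
        (appL K E F (nem (fderiv ℝ f) γ)) γ := fun γ hγ =>
      hasFDerivAt_nem hU hd hf1.continuousOn hγ
    refine ⟨fun γ hγ => (hder γ hγ).differentiableAt.differentiableWithinAt, ?_, ?_⟩
    · intro h
      exact absurd h (by simp)
    · have h3 : ContDiff ℝ n (appL K E F) := by fun_prop
      have h2 : ContDiffOn ℝ n (fun γ : C(K, E) => appL K E F (nem (fderiv ℝ f) γ)) (inSet K U) :=
        h3.comp_contDiffOn (ih hf1)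
      exact h2.congr (fun γ hγ => (hder γ hγ).fderiv)

theorem contDiffOn_nem {E F : Type} [NormedAddCommGroup E] [NormedSpace ℝ E]
    [NormedAddCommGroup F] [NormedSpace ℝ F] {f : E → F}
    {U : Set E} (hU : IsOpen U) (hf : ContDiffOn ℝ ∞ f U) :
    ContDiffOn ℝ ∞ (nem f : C(K, E) → C(K, F)) (inSet K U) := by
  rw [contDiffOn_infty] at hf ⊢
  exact fun n => contDiffOn_nem_nat hU n (hf n)

end Nem

end Pool.Agent.MP03e07f
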