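import Mathlib
import Pool.Agent.MP03e07f.Nemytskii
import Pool.Agent.MP03e07f.Integral
import Pool.Agent.MP03e07f.Inverse

set_option autoImplicit false
open scoped ContDiff Topology
open Set

namespace Pool.Agent.MP03e07f

/-- Constant curves, as a continuous linear map. -/
noncomputable def constL (E : Type*) [NormedAddCommGroup E] [NormedSpace ℝ E] :
    E →L[ℝ] C(UI, E) :=
  LinearMap.mkContinuous
    { toFun := fun x => ContinuousMap.const _ x
      map_add' := by intro x y; ext t; simp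
      map_smul' := by intro c x; ext t; simp }
    1
    (by
      intro x
      rw [ContinuousMap.norm_le _ (by positivity)]
      intro t
      simp)

@[simp]
theorem constL_apply {E : Type*} [NormedAddCommGroup E] [NormedSpace ℝ E] (x : E) (t : UI) :
    constL E x t = x := rfl

/-- Evaluation at a point, as a continuous linear map. -/
noncomputable def evL (E : Type*) [NormedAddCommGroup E] [NormedSpace ℝ E] (t : UI) :
    C(UI, E) →L[ℝ] E :=
  LinearMap.mkContinuous
    { toFun := fun γ => γ t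
      map_add' := by intro x y; simp
      map_smul' := by intro c x; simp }
    1
    (by
      intro γ
      simpa using γ.norm_coe_le_norm t)

@[simp]
theorem evL_apply {E : Type*} [NormedAddCommGroup E] [NormedSpace ℝ E] (t : UI) (γ : C(UI, E)) :
    evL E t γ = γ t := rfl

/-- The map `(x, y) ↦ (x, y - x₀ - ∫ L(y) x)`. -/
noncomputable def thetaMap {E : Type} [NormedAddCommGroup E] [NormedSpace ℝ E]
    (L : E → E →L[ℝ] E) (x₀ : E) (p : E × C(UI, E)) : E × C(UI, E) :=
  (p.1, p.2 - constL E x₀ - prim E (appL UI E E (nem L p.2) (constL E p.1)))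

/-- The shear `(x, y) ↦ (x, y - P x)`. -/
noncomputable def shear {E F : Type} [NormedAddCommGroup E] [NormedSpace ℝ E]
    [NormedAddCommGroup F] [NormedSpace ℝ F] (P : E →L[ℝ] F) : (E × F) ≃L[ℝ] (E × F) :=
  ContinuousLinearEquiv.equivOfInverse
    ((ContinuousLinearMap.fst ℝ E F).prod
      (ContinuousLinearMap.snd ℝ E F - P.comp (ContinuousLinearMap.fst ℝ E F)))
    ((ContinuousLinearMap.fst ℝ E F).prod
      (ContinuousLinearMap.snd ℝ E F + P.comp (ContinuousLinearMap.fst ℝ E F)))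
    (by intro x; ext <;> simp)
    (by intro x; ext <;> simp)

theorem shear_apply {E F : Type} [NormedAddCommGroup E] [NormedSpace ℝ E]
    [NormedAddCommGroup F] [NormedSpace ℝ F] (P : E →L[ℝ] F) (p : E × F) :
    shear P p = (p.1, p.2 - P p.1) := rfl

theorem shear_symm_apply {E F : Type} [NormedAddCommGroup E] [NormedSpace ℝ E]
    [NormedAddCommGroup F] [NormedSpace ℝ F] (P : E →L[ℝ] F) (p : E × F) :
    (shear P).symm p = (p.1, p.2 + P p.1) := rfl

section

variable {E : Type} [NormedAddCommGroup E] [NormedSpace ℝ E] [CompleteSpace E]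

omit [CompleteSpace E] in
theorem contDiffOn_thetaMap {L : E → E →L[ℝ] E} {U : Set E} (hU : IsOpen U)
    (hL : ContDiffOn ℝ ∞ L U) (x₀ : E) :
    ContDiffOn ℝ ∞ (thetaMap L x₀) (univ ×ˢ inSet UI U) := by
  have h1 : ContDiffOn ℝ ∞ (fun p : E × C(UI, E) => (nem L p.2 : C(UI, E →L[ℝ] E)))
      (univ ×ˢ inSet UI U) :=
    (contDiffOn_nem hU hL).comp contDiff_snd.contDiffOn (fun p hp => hp.2)
  have h2 : ContDiff ℝ ∞ (appL UI E E) := by fun_prop
  have h3 : ContDiffOn ℝ ∞ (fun p : E × C(UI, E) => appL UI E E (nem L p.2)) (univ ×ˢ inSet UI U) :=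
    h2.comp_contDiffOn h1
  have h4 : ContDiff ℝ ∞ (fun p : E × C(UI, E) => constL E p.1) := by fun_prop
  have h5 : ContDiffOn ℝ ∞ (fun p : E × C(UI, E) => appL UI E E (nem L p.2) (constL E p.1))
      (univ ×ˢ inSet UI U) := h3.clm_apply h4.contDiffOn
  have h6 : ContDiff ℝ ∞ (prim E) := by fun_prop
  have h7 : ContDiffOn ℝ ∞ (fun p : E × C(UI, E) =>
      prim E (appL UI E E (nem L p.2) (constL E p.1))) (univ ×ˢ inSet UI U) :=
    h6.comp_contDiffOn h5
  unfold thetaMap
  exact contDiff_fst.contDiffOn.prodMk ((contDiff_snd.contDiffOn.sub contDiffOn_const).sub h7)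

/-- The derivative of `x ↦ ∫ L(x₀) x`. -/
noncomputable def PL (L : E → E →L[ℝ] E) (x₀ : E) : E →L[ℝ] C(UI, E) :=
  (prim E).comp ((appL UI E E (nem L (constL E x₀))).comp (constL E))

omit [CompleteSpace E] in
theorem hasFDerivAt_thetaMap {L : E → E →L[ℝ] E} {U : Set E} (hU : IsOpen U)
    (hL : ContDiffOn ℝ ∞ L U) {x₀ : E} (hx₀ : x₀ ∈ U) :
    HasFDerivAt (thetaMap L x₀) (shear (PL L x₀) : (E × C(UI, E)) →L[ℝ] (E × C(UI, E)))
      (0, constL E x₀) := by
  have hmem : constL E x₀ ∈ inSet UI U := fun t => hx₀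
  have h0 : HasFDerivAt (nem L : C(UI, E) → C(UI, E →L[ℝ] E))
      (appL UI E (E →L[ℝ] E) (nem (fderiv ℝ L) (constL E x₀))) (constL E x₀) :=
    hasFDerivAt_nem hU (hL.differentiableOn (by simp))
      (hL.continuousOn_fderiv_of_isOpen hU (by simp)) hmem
  have h1 : HasFDerivAt (fun p : E × C(UI, E) => (nem L p.2 : C(UI, E →L[ℝ] E)))
      ((appL UI E (E →L[ℝ] E) (nem (fderiv ℝ L) (constL E x₀))).comp
        (ContinuousLinearMap.snd ℝ E C(UI, E))) (0, constL E x₀) :=
    HasFDerivAt.comp (f := fun p : E × C(UI, E) => p.2) ((0 : E), constL E x₀) h0 hasFDerivAt_snd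
  have h4 : HasFDerivAt (fun p : E × C(UI, E) => constL E p.1)
      ((constL E).comp (ContinuousLinearMap.fst ℝ E C(UI, E))) (0, constL E x₀) :=
    (constL E).hasFDerivAt.comp ((0 : E), constL E x₀) hasFDerivAt_fst
  have h5 := (appL UI E E).hasFDerivAt_of_bilinear h1 h4
  have h7 := (prim E).hasFDerivAt.comp ((0 : E), constL E x₀) h5
  have h8 := (hasFDerivAt_fst (𝕜 := ℝ) (p := ((0 : E), constL E x₀))).prodMk
    (((hasFDerivAt_snd (𝕜 := ℝ) (p := ((0 : E), constL E x₀))).sub_const (constL E x₀)).sub h7)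
  refine h8.congr_fderiv ?_
  ext p <;> simp [shear_apply, PL]

/-- Smooth dependence of the solutions of `y' = L(y) x`, `y(0) = x₀` on the parameter `x`, near
`x = 0`, for times in `[0,1]`. -/
theorem exists_flow {L : E → E →L[ℝ] E} {U : Set E} (hU : IsOpen U)
    (hL : ContDiffOn ℝ ∞ L U) {x₀ : E} (hx₀ : x₀ ∈ U) :
    ∃ (W : Set E) (Y : E → C(UI, E)), IsOpen W ∧ (0 : E) ∈ W ∧ ContDiffOn ℝ ∞ Y W ∧
      Y 0 = constL E x₀ ∧ HasFDerivAt Y (PL L x₀) 0 ∧
      ∀ x ∈ W, Y x ∈ inSet UI U ∧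
        Y x = constL E x₀ + prim E (appL UI E E (nem L (Y x)) (constL E x)) := by
  have hdom : IsOpen ((univ : Set E) ×ˢ inSet UI U) := isOpen_univ.prod (isOpen_inSet hU)
  have hmem : ((0 : E), constL E x₀) ∈ (univ : Set E) ×ˢ inSet UI U := ⟨mem_univ _, fun t => hx₀⟩
  obtain ⟨e, he0, hsub, hef, hes, het⟩ := exists_smooth_inverse hdom hmem
    (contDiffOn_thetaMap hU hL x₀) (shear (PL L x₀)) (hasFDerivAt_thetaMap hU hL hx₀)
  have hbase : e (0, constL E x₀) = (0, 0) := by
    rw [hef]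
    ext <;> simp [thetaMap]
  have hbt : ((0 : E), (0 : C(UI, E))) ∈ e.target := by
    rw [← hbase]
    exact e.map_source he0
  have hbs : e.symm (0, 0) = (0, constL E x₀) := by
    rw [← hbase]
    exact e.left_inv he0
  have hι : ContDiff ℝ ∞ (fun x : E => (x, (0 : C(UI, E)))) := contDiff_id.prodMk contDiff_const
  refine ⟨(fun x : E => (x, (0 : C(UI, E)))) ⁻¹' e.target, fun x => (e.symm (x, 0)).2,
    e.open_target.preimage hι.continuous, hbt, ?_, ?_, ?_, ?_⟩
  · exact contDiff_snd.comp_contDiffOn (het.comp hι.contDiffOn (fun x hx => hx))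
  · simp only [hbs]
  · have h1 : HasFDerivAt e.symm ((shear (PL L x₀)).symm : (E × C(UI, E)) →L[ℝ] (E × C(UI, E)))
        ((0 : E), (0 : C(UI, E))) := by
      apply e.hasFDerivAt_symm hbt
      rw [hbs]
      have : (e : E × C(UI, E) → E × C(UI, E)) = thetaMap L x₀ := funext hef
      rw [this]
      exact hasFDerivAt_thetaMap hU hL hx₀
    have h2 : HasFDerivAt (fun x : E => (x, (0 : C(UI, E))))
        ((ContinuousLinearMap.id ℝ E).prod (0 : E →L[ℝ] C(UI, E))) 0 :=
      (hasFDerivAt_id (0 : E)).prodMk (hasFDerivAt_const _ _)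
    have h3 : HasFDerivAt (fun x : E => e.symm (x, (0 : C(UI, E)))) _ 0 :=
      HasFDerivAt.comp (0 : E) h1 h2
    have h4 := h3.snd
    refine h4.congr_fderiv ?_
    ext x
    simp [shear_symm_apply]
  · intro x hx
    have hx' : (x, (0 : C(UI, E))) ∈ e.target := hx
    have h1 : e.symm (x, 0) ∈ e.source := e.map_target hx'
    have h2 : thetaMap L x₀ (e.symm (x, 0)) = (x, 0) := by
      rw [← hef]
      exact e.right_inv hx'
    have h3 := hsub h1
    refine ⟨h3.2, ?_⟩
    have h4 : (e.symm (x, 0)).1 = x := by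
      have := congrArg Prod.fst h2
      simpa [thetaMap] using this
    have h5 := congrArg Prod.snd h2
    simp only [thetaMap, h4] at h5
    rw [sub_sub, sub_eq_zero] at h5
    exact h5

/-- A smooth chart adapted to the level set of a function `o` satisfying
`Do(y)(L(y) x) = B(y) (T x)` with `B(y)` near the identity. -/
theorem exists_adapted_chart {X : Type} [NormedAddCommGroup X] [NormedSpace ℝ X]
    {L : E → E →L[ℝ] E} {U : Set E} (hU : IsOpen U)
    (hL : ContDiffOn ℝ ∞ L U) {x₀ : E} (hx₀ : x₀ ∈ U) (hL0 : ∀ x, L x₀ x = x)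
    {o : E → X} (ho : ∀ y ∈ U, DifferentiableAt ℝ o y) (T : E →L[ℝ] X)
    (hB : ∀ y ∈ U, ∀ x, ‖fderiv ℝ o y (L y x) - T x‖ ≤ 1 / 2 * ‖T x‖) :
    ∃ Φ : OpenPartialHomeomorph E E, (0 : E) ∈ Φ.source ∧ Φ 0 = x₀ ∧ Φ.target ⊆ U ∧
      ContDiffOn ℝ ∞ Φ Φ.source ∧ ContDiffOn ℝ ∞ Φ.symm Φ.target ∧
      ∀ x ∈ Φ.source, (o (Φ x) = o x₀ ↔ T x = 0) := by
  obtain ⟨W, Y, hW, hW0, hY, hY0, hYd, hYeq⟩ := exists_flow hU hL hx₀
  let one : UI := ⟨1, by norm_num, le_refl _⟩
  let f : E → E := fun x => Y x one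
  have hf : ContDiffOn ℝ ∞ f W := (evL E one).contDiff.comp_contDiffOn hY
  have hf' : HasFDerivAt f ((ContinuousLinearEquiv.refl ℝ E : E ≃L[ℝ] E) : E →L[ℝ] E) 0 := by
    have h1 : HasFDerivAt (fun x => evL E one (Y x)) _ 0 :=
      (evL E one).hasFDerivAt.comp (0 : E) hYd
    refine h1.congr_fderiv ?_
    ext x
    have hmem : constL E x₀ ∈ inSet UI U := fun t => hx₀
    simp only [PL, ContinuousLinearMap.comp_apply, evL_apply, prim_apply, appL_apply,
      nem_apply hL.continuousOn hmem, constL_apply, hL0]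
    simp [one]
  obtain ⟨Φ, h0, hsub, hΦf, hΦs, hΦt⟩ := exists_smooth_inverse hW hW0 hf
    (ContinuousLinearEquiv.refl ℝ E) hf'
  -- the curve
  have hcurve : ∀ x ∈ W, (f x ∈ U) ∧ (o (f x) = o x₀ ↔ T x = 0) := by
    intro x hx
    obtain ⟨hin, heq⟩ := hYeq x hx
    refine ⟨hin one, ?_⟩
    set A : C(UI, E) := appL UI E E (nem L (Y x)) (constL E x) with hA
    let c : ℝ → E := fun t => x₀ + ∫ s in (0 : ℝ)..t, A (pr s)
    have hc : ∀ t ∈ Icc (0 : ℝ) 1, c t = Y x (pr t) := by
      intro t ht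
      rw [heq]
      simp only [ContinuousMap.add_apply, constL_apply, prim_apply, c, pr]
      rw [projIcc_of_mem _ ht]
    have hAval : ∀ t, A (pr t) = L (Y x (pr t)) x := by
      intro t
      rw [hA, appL_apply, nem_apply hL.continuousOn hin, constL_apply]
    have hcd : ∀ t ∈ Icc (0 : ℝ) 1, HasDerivAt c (L (c t) x) t := by
      intro t ht
      rw [hc t ht, ← hAval t]
      exact (hasDerivAt_prim A t).const_add x₀
    have hcU : ∀ t ∈ Icc (0 : ℝ) 1, c t ∈ U := by
      intro t ht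
      rw [hc t ht]
      exact hin _
    have hod : ∀ t ∈ Icc (0 : ℝ) 1,
        HasDerivWithinAt (fun t => o (c t) - t • T x)
          (fderiv ℝ o (c t) (L (c t) x) - T x) (Icc 0 1) t := by
      intro t ht
      have h1 : HasDerivAt (fun t => o (c t)) (fderiv ℝ o (c t) (L (c t) x)) t :=
        (ho _ (hcU t ht)).hasFDerivAt.comp_hasDerivAt t (hcd t ht)
      have h2 : HasDerivAt (fun t : ℝ => t • T x) (T x) t := by
        simpa using (hasDerivAt_id t).smul_const (T x)
      exact (h1.sub h2).hasDerivWithinAt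
    have hbound := norm_image_sub_le_of_norm_deriv_le_segment_01' hod
      (fun t ht => hB (c t) (hcU t (Ico_subset_Icc_self ht)) x)
    have hc0 : c 0 = x₀ := by simp [c]
    have hc1 : c 1 = f x := by
      rw [hc 1 (by simp)]
      show Y x (pr 1) = Y x one
      congr 1
      simp only [pr, projIcc_right]
      rfl
    rw [hc0, hc1] at hbound
    simp only [one_smul, zero_smul, sub_zero] at hbound
    constructor
    · intro h
      rw [h] at hbound
      have h3 : o x₀ - T x - o x₀ = - T x := by abel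
      rw [h3, norm_neg] at hbound
      have h4 : ‖T x‖ ≤ 0 := by linarith
      exact norm_le_zero_iff.1 h4
    · intro h
      rw [h] at hbound
      simp only [sub_zero, norm_zero, mul_zero, norm_le_zero_iff, sub_eq_zero] at hbound
      exact hbound
  have hf0 : f 0 = x₀ := by
    show Y 0 one = x₀
    rw [hY0, constL_apply]
  refine ⟨Φ, h0, by rw [hΦf, hf0], ?_, hΦs, hΦt, ?_⟩
  · intro y hy
    have h1 := Φ.map_target hy
    have h2 : f (Φ.symm y) = y := by rw [← hΦf]; exact Φ.right_inv hy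
    rw [← h2]
    exact (hcurve _ (hsub h1)).1
  · intro x hx
    rw [hΦf]
    exact (hcurve x (hsub hx)).2

end

end Pool.Agent.MP03e07f
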