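import Mathlib
import Pool.Agent.MP03e07f.Flow

set_option autoImplicit false
open scoped ContDiff Manifold Topology
open Set

namespace Pool.Agent.MP03e07f

section Local

variable {E : Type} [NormedAddCommGroup E] [NormedSpace ℝ E] [CompleteSpace E]
  {G : Type} [TopologicalSpace G] [ChartedSpace E G] [Group G] [LieGroup 𝓘(ℝ, E) ∞ G]
  {X : Type} [NormedAddCommGroup X] [NormedSpace ℝ X] [CompleteSpace X]
  {M : Type} [TopologicalSpace M] [ChartedSpace X M]
  [IsManifold 𝓘(ℝ, X) ∞ M] [MulAction G M]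

/-- The group multiplication in the chart at the identity. -/
noncomputable def muC (E : Type) [NormedAddCommGroup E] (G : Type) [TopologicalSpace G]
    [ChartedSpace E G] [Group G] (q : E × E) : E :=
  chartAt E (1 : G) ((chartAt E (1 : G)).symm q.1 * (chartAt E (1 : G)).symm q.2)

/-- The action in the charts at the identity and at `m`. -/
noncomputable def actC (E : Type) [NormedAddCommGroup E] (G : Type) [TopologicalSpace G]
    [ChartedSpace E G] [Group G] {X : Type} [NormedAddCommGroup X]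
    {M : Type} [TopologicalSpace M] [ChartedSpace X M] [MulAction G M] (m : M) (q : E × X) : X :=
  chartAt X m ((chartAt E (1 : G)).symm q.1 • (chartAt X m).symm q.2)

omit [CompleteSpace E] in
theorem contDiffAt_muC {q : E × E} (h1 : q.1 ∈ (chartAt E (1 : G)).target)
    (h2 : q.2 ∈ (chartAt E (1 : G)).target)
    (h3 : (chartAt E (1 : G)).symm q.1 * (chartAt E (1 : G)).symm q.2
      ∈ (chartAt E (1 : G)).source) : ContDiffAt ℝ ∞ (muC E G) q := by
  have : IsManifold 𝓘(ℝ, E) ∞ G := inferInstance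
  rw [← contMDiffAt_iff_contDiffAt]
  have hc := IsManifold.chart_mem_maximalAtlas (I := 𝓘(ℝ, E)) (n := ∞) (1 : G)
  have e1 : ContMDiffAt 𝓘(ℝ, E × E) 𝓘(ℝ, E) ∞
      (fun q : E × E => (chartAt E (1 : G)).symm q.1) q :=
    ContMDiffAt.comp (f := fun q : E × E => q.1) q (contMDiffAt_symm_of_mem_maximalAtlas hc h1)
      contDiff_fst.contMDiff.contMDiffAt
  have e2 : ContMDiffAt 𝓘(ℝ, E × E) 𝓘(ℝ, E) ∞
      (fun q : E × E => (chartAt E (1 : G)).symm q.2) q :=
    ContMDiffAt.comp (f := fun q : E × E => q.2) q (contMDiffAt_symm_of_mem_maximalAtlas hc h2)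
      contDiff_snd.contMDiff.contMDiffAt
  exact ContMDiffAt.comp (g := chartAt E (1 : G)) q (contMDiffAt_of_mem_maximalAtlas hc h3)
    (e1.mul e2)

omit [CompleteSpace E] [CompleteSpace X] in
theorem contDiffAt_actC
    (hσ : ContMDiff (𝓘(ℝ, E).prod 𝓘(ℝ, X)) 𝓘(ℝ, X) ∞ (fun p : G × M => p.1 • p.2)) (m : M)
    {q : E × X} (h1 : q.1 ∈ (chartAt E (1 : G)).target)
    (h2 : q.2 ∈ (chartAt X m).target)
    (h3 : (chartAt E (1 : G)).symm q.1 • (chartAt X m).symm q.2
      ∈ (chartAt X m).source) : ContDiffAt ℝ ∞ (actC E G m) q := by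
  have : IsManifold 𝓘(ℝ, E) ∞ G := inferInstance
  rw [← contMDiffAt_iff_contDiffAt]
  have hc := IsManifold.chart_mem_maximalAtlas (I := 𝓘(ℝ, E)) (n := ∞) (1 : G)
  have hc' := IsManifold.chart_mem_maximalAtlas (I := 𝓘(ℝ, X)) (n := ∞) m
  have e1 : ContMDiffAt 𝓘(ℝ, E × X) 𝓘(ℝ, E) ∞
      (fun q : E × X => (chartAt E (1 : G)).symm q.1) q :=
    ContMDiffAt.comp (f := fun q : E × X => q.1) q (contMDiffAt_symm_of_mem_maximalAtlas hc h1)
      contDiff_fst.contMDiff.contMDiffAt
  have e2 : ContMDiffAt 𝓘(ℝ, E × X) 𝓘(ℝ, X) ∞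
      (fun q : E × X => (chartAt X m).symm q.2) q :=
    ContMDiffAt.comp (f := fun q : E × X => q.2) q (contMDiffAt_symm_of_mem_maximalAtlas hc' h2)
      contDiff_snd.contMDiff.contMDiffAt
  have e3 : ContMDiffAt 𝓘(ℝ, E × X) 𝓘(ℝ, X) ∞
      (fun q : E × X => (chartAt E (1 : G)).symm q.1 • (chartAt X m).symm q.2) q :=
    ContMDiffAt.comp (g := fun p : G × M => p.1 • p.2)
      (f := fun q : E × X => ((chartAt E (1 : G)).symm q.1, (chartAt X m).symm q.2)) q
      hσ.contMDiffAt (e1.prodMk e2)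
  exact ContMDiffAt.comp (g := chartAt X m) q (contMDiffAt_of_mem_maximalAtlas hc' h3) e3

/-- **Key theorem**: near the identity the stabilizer is, in a suitable chart, a closed linear
subspace. -/
theorem exists_stabilizer_chart
    (hσ : ContMDiff (𝓘(ℝ, E).prod 𝓘(ℝ, X)) 𝓘(ℝ, X) ∞ (fun p : G × M => p.1 • p.2)) (m : M) :
    ∃ V : Submodule ℝ E, IsClosed (V : Set E) ∧
      ∃ e ∈ IsManifold.maximalAtlas 𝓘(ℝ, E) ∞ G, (1 : G) ∈ e.source ∧
        ∀ g ∈ e.source, (g • m = m ↔ e g ∈ V) := by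
  have : IsManifold 𝓘(ℝ, E) ∞ G := inferInstance
  set φ := chartAt E (1 : G) with hφ
  set ψ := chartAt X m with hψ
  set x₀ : E := φ 1 with hx₀
  set p₀ : X := ψ m with hp₀
  have h1s : (1 : G) ∈ φ.source := mem_chart_source E (1 : G)
  have hms : m ∈ ψ.source := mem_chart_source X m
  have hx₀t : x₀ ∈ φ.target := φ.map_source h1s
  have hp₀t : p₀ ∈ ψ.target := ψ.map_source hms
  have hφx₀ : φ.symm x₀ = 1 := φ.left_inv h1s
  have hψp₀ : ψ.symm p₀ = m := ψ.left_inv hms
  have hact : Continuous (fun g : G => g • m) :=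
    hσ.continuous.comp (continuous_id.prodMk continuous_const)
  -- the domain
  set U₁ : Set E := φ.target ∩ φ.symm ⁻¹' {g | g • m ∈ ψ.source} with hU₁
  have hU₁o : IsOpen U₁ := φ.isOpen_inter_preimage_symm (ψ.open_source.preimage hact)
  have hx₀U₁ : x₀ ∈ U₁ := by
    refine ⟨hx₀t, ?_⟩
    simp only [mem_preimage, mem_ofPred_eq, hφx₀, one_smul]
    exact hms
  have hμ : ∀ y ∈ U₁, ContDiffAt ℝ ∞ (muC E G) (y, x₀) := by
    intro y hy
    apply contDiffAt_muC hy.1 hx₀t
    show φ.symm y * φ.symm x₀ ∈ φ.source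
    rw [hφx₀, mul_one]
    exact φ.map_target hy.1
  have ha : ∀ y ∈ U₁, ContDiffAt ℝ ∞ (actC E G m) (y, p₀) := by
    intro y hy
    apply contDiffAt_actC hσ m hy.1 hp₀t
    show φ.symm y • ψ.symm p₀ ∈ ψ.source
    rw [hψp₀]
    exact hy.2
  -- the left invariant vector fields
  set L : E → E →L[ℝ] E := fun y => (fderiv ℝ (muC E G) (y, x₀)).comp
    (ContinuousLinearMap.inr ℝ E E) with hL
  have hLs : ContDiffOn ℝ ∞ L U₁ := by
    intro y hy
    apply ContDiffAt.contDiffWithinAt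
    have h1 : ContDiffAt ℝ ∞ (fderiv ℝ (muC E G)) (y, x₀) := (hμ y hy).fderiv_right (by simp)
    have h2 : ContDiffAt ℝ ∞ (fun y : E => (y, x₀)) y := contDiffAt_id.prodMk contDiffAt_const
    have h3 : ContDiffAt ℝ ∞ (fun y : E => fderiv ℝ (muC E G) (y, x₀)) y :=
      ContDiffAt.comp (g := fderiv ℝ (muC E G)) y h1 h2
    exact h3.clm_comp contDiffAt_const
  have hμx : ∀ᶠ z in 𝓝 x₀, muC E G (x₀, z) = z := by
    filter_upwards [φ.open_target.mem_nhds hx₀t] with z hz
    show φ (φ.symm x₀ * φ.symm z) = z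
    rw [hφx₀, one_mul]
    exact φ.right_inv hz
  have hL0 : ∀ x, L x₀ x = x := by
    intro x
    have h1 : HasFDerivAt (fun z : E => muC E G (x₀, z)) (L x₀) x₀ := by
      have h2 : HasFDerivAt (muC E G) (fderiv ℝ (muC E G) (x₀, x₀)) (x₀, x₀) :=
        ((hμ x₀ hx₀U₁).differentiableAt (by simp)).hasFDerivAt
      exact h2.comp x₀ (hasFDerivAt_prodMk_right x₀ x₀)
    have h3 : HasFDerivAt (fun z : E => z) (L x₀) x₀ :=
      h1.congr_of_eventuallyEq (hμx.mono fun z hz => hz.symm)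
    have h4 : L x₀ = ContinuousLinearMap.id ℝ E := h3.unique (hasFDerivAt_id x₀)
    rw [h4]
    rfl
  -- the orbit map
  set o : E → X := fun y => actC E G m (y, p₀) with ho
  set T : E →L[ℝ] X := (fderiv ℝ (actC E G m) (x₀, p₀)).comp (ContinuousLinearMap.inl ℝ E X)
    with hT
  set B : E → X →L[ℝ] X := fun y => (fderiv ℝ (actC E G m) (y, p₀)).comp
    (ContinuousLinearMap.inr ℝ E X) with hB
  have hod : ∀ y ∈ U₁, HasFDerivAt o
      ((fderiv ℝ (actC E G m) (y, p₀)).comp (ContinuousLinearMap.inl ℝ E X)) y := by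
    intro y hy
    have h2 : HasFDerivAt (actC E G m) (fderiv ℝ (actC E G m) (y, p₀)) (y, p₀) :=
      ((ha y hy).differentiableAt (by simp)).hasFDerivAt
    exact HasFDerivAt.comp (g := actC E G m) (f := fun e : E => (e, p₀)) y h2
      (hasFDerivAt_prodMk_left (𝕜 := ℝ) y p₀)
  have hBc : ContinuousOn B U₁ := by
    intro y hy
    apply ContinuousAt.continuousWithinAt
    have h1 : ContDiffAt ℝ ∞ (fderiv ℝ (actC E G m)) (y, p₀) := (ha y hy).fderiv_right (by simp)
    have h2 : ContDiffAt ℝ ∞ (fun y : E => (y, p₀)) y := contDiffAt_id.prodMk contDiffAt_const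
    have h3 : ContDiffAt ℝ ∞ (fun y : E => fderiv ℝ (actC E G m) (y, p₀)) y :=
      ContDiffAt.comp (g := fderiv ℝ (actC E G m)) y h1 h2
    exact (h3.clm_comp contDiffAt_const).continuousAt
  have hax : ∀ᶠ p in 𝓝 p₀, actC E G m (x₀, p) = p := by
    filter_upwards [ψ.open_target.mem_nhds hp₀t] with p hp
    show ψ (φ.symm x₀ • ψ.symm p) = p
    rw [hφx₀, one_smul]
    exact ψ.right_inv hp
  have hB0 : B x₀ = ContinuousLinearMap.id ℝ X := by
    have h1 : HasFDerivAt (fun p : X => actC E G m (x₀, p)) (B x₀) p₀ := by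
      have h2 : HasFDerivAt (actC E G m) (fderiv ℝ (actC E G m) (x₀, p₀)) (x₀, p₀) :=
        ((ha x₀ hx₀U₁).differentiableAt (by simp)).hasFDerivAt
      exact h2.comp p₀ (hasFDerivAt_prodMk_right x₀ p₀)
    have h3 : HasFDerivAt (fun z : X => z) (B x₀) p₀ :=
      h1.congr_of_eventuallyEq (hax.mono fun z hz => hz.symm)
    exact h3.unique (hasFDerivAt_id p₀)
  -- the key identity
  have hkey : ∀ y ∈ U₁, ∀ x, fderiv ℝ o y (L y x) = B y (T x) := by
    intro y hy x
    have hμy : muC E G (y, x₀) = y := by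
      show φ (φ.symm y * φ.symm x₀) = y
      rw [hφx₀, mul_one]
      exact φ.right_inv hy.1
    have hax0 : actC E G m (x₀, p₀) = p₀ := by
      show ψ (φ.symm x₀ • ψ.symm p₀) = p₀
      rw [hφx₀, one_smul]
      exact ψ.right_inv hp₀t
    have h1 : HasFDerivAt (fun z : E => o (muC E G (y, z))) ((fderiv ℝ o y).comp (L y)) x₀ := by
      have h2 : HasFDerivAt (muC E G) (fderiv ℝ (muC E G) (y, x₀)) (y, x₀) :=
        ((hμ y hy).differentiableAt (by simp)).hasFDerivAt
      have h3 : HasFDerivAt (fun z : E => muC E G (y, z)) (L y) x₀ :=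
        h2.comp x₀ (hasFDerivAt_prodMk_right y x₀)
      have h4 : HasFDerivAt o (fderiv ℝ o y) (muC E G (y, x₀)) := by
        rw [hμy]
        exact (hod y hy).differentiableAt.hasFDerivAt
      exact h4.comp x₀ h3
    have h5 : HasFDerivAt (fun z : E => actC E G m (y, actC E G m (z, p₀))) ((B y).comp T) x₀ := by
      have h2 : HasFDerivAt (actC E G m) (fderiv ℝ (actC E G m) (y, p₀)) (y, p₀) :=
        ((ha y hy).differentiableAt (by simp)).hasFDerivAt
      have h3 : HasFDerivAt (fun p : X => actC E G m (y, p)) (B y) (actC E G m (x₀, p₀)) := by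
        rw [hax0]
        exact h2.comp p₀ (hasFDerivAt_prodMk_right y p₀)
      exact h3.comp x₀ (hod x₀ hx₀U₁)
    have h6 : (fun z : E => o (muC E G (y, z))) =ᶠ[𝓝 x₀]
        (fun z : E => actC E G m (y, actC E G m (z, p₀))) := by
      have hc1 : ContinuousAt (fun z => φ.symm y * φ.symm z) x₀ := by
        have : ContinuousAt φ.symm x₀ := φ.continuousAt_symm hx₀t
        have hmul : Continuous (fun p : G × G => p.1 * p.2) :=
          (contMDiff_mul 𝓘(ℝ, E) ∞).continuous
        exact ContinuousAt.comp (g := fun p : G × G => p.1 * p.2)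
          (f := fun z => (φ.symm y, φ.symm z)) hmul.continuousAt (continuousAt_const.prodMk this)
      have hc2 : ContinuousAt (fun z => φ.symm z • m) x₀ :=
        hact.continuousAt.comp (φ.continuousAt_symm hx₀t)
      have hm1 : ∀ᶠ z in 𝓝 x₀, φ.symm y * φ.symm z ∈ φ.source := by
        apply hc1.eventually
        apply φ.open_source.mem_nhds
        show φ.symm y * φ.symm x₀ ∈ φ.source
        rw [hφx₀, mul_one]
        exact φ.map_target hy.1
      have hm2 : ∀ᶠ z in 𝓝 x₀, φ.symm z • m ∈ ψ.source := by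
        apply hc2.eventually
        apply ψ.open_source.mem_nhds
        show φ.symm x₀ • m ∈ ψ.source
        rw [hφx₀, one_smul]
        exact hms
      filter_upwards [hm1, hm2] with z hz1 hz2
      show ψ (φ.symm (φ (φ.symm y * φ.symm z)) • ψ.symm p₀)
        = ψ (φ.symm y • ψ.symm (ψ (φ.symm z • ψ.symm p₀)))
      rw [φ.left_inv hz1, hψp₀, ψ.left_inv hz2, mul_smul]
    have h7 := (h1.congr_of_eventuallyEq h6.symm).unique h5
    exact DFunLike.congr_fun h7 x
  -- shrink the domain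
  set U : Set E := U₁ ∩ B ⁻¹' (Metric.ball (ContinuousLinearMap.id ℝ X) (1 / 2)) with hU
  have hUo : IsOpen U := hBc.isOpen_inter_preimage hU₁o Metric.isOpen_ball
  have hx₀U : x₀ ∈ U := by
    refine ⟨hx₀U₁, ?_⟩
    simp only [mem_preimage, hB0]
    exact Metric.mem_ball_self (by norm_num)
  have hbound : ∀ y ∈ U, ∀ x, ‖fderiv ℝ o y (L y x) - T x‖ ≤ 1 / 2 * ‖T x‖ := by
    intro y hy x
    rw [hkey y hy.1 x]
    have h1 : ‖B y - ContinuousLinearMap.id ℝ X‖ < 1 / 2 := by
      have := hy.2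
      rwa [mem_preimage, Metric.mem_ball, dist_eq_norm] at this
    calc ‖B y (T x) - T x‖ = ‖(B y - ContinuousLinearMap.id ℝ X) (T x)‖ := by simp
      _ ≤ ‖B y - ContinuousLinearMap.id ℝ X‖ * ‖T x‖ := ContinuousLinearMap.le_opNorm _ _
      _ ≤ 1 / 2 * ‖T x‖ := by gcongr
  obtain ⟨Φ, hΦ0, hΦx, hΦt, hΦs, hΦi, hΦo⟩ := exists_adapted_chart hUo
    (hLs.mono inter_subset_left) hx₀U hL0
    (fun y hy => (hod y hy.1).differentiableAt) T hbound
  refine ⟨LinearMap.ker (T : E →ₗ[ℝ] X), T.isClosed_ker, φ.trans Φ.symm, ?_, ?_, ?_⟩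
  · have hc := IsManifold.chart_mem_maximalAtlas (I := 𝓘(ℝ, E)) (n := ∞) (1 : G)
    apply OpenPartialHomeomorph.mem_maximalAtlas_of_contMDiffOn
    · apply ContMDiffOn.comp (t := Φ.target) (contMDiffOn_iff_contDiffOn.2 hΦi)
        ((contMDiffOn_of_mem_maximalAtlas hc).mono (fun g hg => hg.1))
      intro g hg
      exact hg.2
    · apply ContMDiffOn.comp (t := φ.target) (contMDiffOn_symm_of_mem_maximalAtlas hc)
        ((contMDiffOn_iff_contDiffOn.2 hΦs).mono (fun g hg => hg.1))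
      intro g hg
      exact hg.2
  · rw [OpenPartialHomeomorph.trans_source]
    refine ⟨h1s, ?_⟩
    show φ 1 ∈ Φ.target
    rw [← hx₀, ← hΦx]
    exact Φ.map_source hΦ0
  · intro g hg
    rw [OpenPartialHomeomorph.trans_source] at hg
    obtain ⟨hg1, hg2⟩ := hg
    have hg2' : φ g ∈ Φ.target := hg2
    have hgU := hΦt hg2'
    have hgm : g • m ∈ ψ.source := by
      have := hgU.1.2
      rw [mem_preimage, φ.left_inv hg1] at this
      exact this
    have h1 := hΦo (Φ.symm (φ g)) (Φ.map_target hg2')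
    rw [Φ.right_inv hg2'] at h1
    have h2 : o (φ g) = ψ (g • m) := by
      show ψ (φ.symm (φ g) • ψ.symm p₀) = ψ (g • m)
      rw [φ.left_inv hg1, hψp₀]
    have h3 : o x₀ = ψ m := by
      show ψ (φ.symm x₀ • ψ.symm p₀) = ψ m
      rw [hφx₀, hψp₀, one_smul]
    rw [h2, h3] at h1
    show g • m = m ↔ T (Φ.symm (φ g)) = 0
    rw [← h1]
    constructor
    · intro h
      rw [h]
    · intro h
      exact ψ.injOn hgm hms h

end Local

end Pool.Agent.MP03e07f
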